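import Pool.Agent.TH503.PQ.Seq

set_option autoImplicit false

/-!
The family `m = 4 q`.
-/

namespace Pool.Agent.TH503.PQ.Fam0

open Finset

/-- `1..q-1 | 3q..4q | 2q-1..q+1 | -q | 3q-1..2q` -/
def d (q i : ℕ) : ℤ :=
  if i < q - 1 then (i : ℤ) + 1
  else if i < 2 * q then 2 * q + 1 + i
  else if i < 3 * q - 1 then 4 * q - 1 - i
  else if i < 3 * q then - q
  else 6 * q - 1 - i

theorem hA (q : ℕ) (hq : 2 ≤ q) (x : ℕ) (hx1 : 1 ≤ x) (hx : x ≤ 4 * q) :
    ∃ i, i < 4 * q ∧ (d q i = x ∨ d q i = -x) := by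
  rcases Nat.lt_or_ge x q with h | h
  · exact ⟨x - 1, by omega, Or.inl (by unfold d; split_ifs <;> omega)⟩
  rcases Nat.lt_or_ge x (q + 1) with h' | h'
  · exact ⟨3 * q - 1, by omega, Or.inr (by unfold d; split_ifs <;> omega)⟩
  rcases Nat.lt_or_ge x (2 * q) with h1 | h1
  · exact ⟨4 * q - 1 - x, by omega, Or.inl (by unfold d; split_ifs <;> omega)⟩
  rcases Nat.lt_or_ge x (3 * q) with h2 | h2
  · exact ⟨6 * q - 1 - x, by omega, Or.inl (by unfold d; split_ifs <;> omega)⟩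
  · exact ⟨x - 2 * q - 1, by omega, Or.inl (by unfold d; split_ifs <;> omega)⟩

theorem hB (q : ℕ) (hq : 2 ≤ q) (j : ℕ) (hj : j < 4 * q) :
    ∃ i, i < 4 * q ∧ (esum (4 * q) (d q) i = 2 * j + 1 ∨ esum (4 * q) (d q) i = -(2 * j + 1) ∨
      esum (4 * q) (d q) i = 2 * j - 2 * (4 * q : ℕ) ∨
      esum (4 * q) (d q) i = 2 * (4 * q : ℕ) - 2 * j) := by
  unfold esum
  rcases Nat.lt_or_ge j 1 with h | h
  · exact ⟨3 * q - 2, by omega, Or.inl (by unfold d; split_ifs <;> omega)⟩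
  rcases Nat.lt_or_ge j (q - 1) with h1 | h1
  · exact ⟨j - 1, by omega, Or.inl (by unfold d; split_ifs <;> omega)⟩
  rcases Nat.lt_or_ge j q with h2 | h2
  · exact ⟨3 * q - 1, by omega, Or.inl (by unfold d; split_ifs <;> omega)⟩
  rcases Nat.lt_or_ge j (q + 1) with h3 | h3
  · exact ⟨4 * q - 1, by omega, Or.inl (by unfold d; split_ifs <;> omega)⟩
  rcases Nat.lt_or_ge j (2 * q - 1) with h4 | h4
  · exact ⟨4 * q - 2 - j, by omega, Or.inl (by unfold d; split_ifs <;> omega)⟩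
  rcases Nat.lt_or_ge j (2 * q) with h5 | h5
  · exact ⟨q - 2, by omega, Or.inl (by unfold d; split_ifs <;> omega)⟩
  rcases Nat.lt_or_ge j (3 * q - 1) with h6 | h6
  · exact ⟨6 * q - 2 - j, by omega, Or.inl (by unfold d; split_ifs <;> omega)⟩
  rcases Nat.lt_or_ge j (3 * q) with h7 | h7
  · exact ⟨2 * q - 1, by omega, Or.inl (by unfold d; split_ifs <;> omega)⟩
  · exact ⟨j - 2 * q - 1, by omega, Or.inl (by unfold d; split_ifs <;> omega)⟩

theorem hS (q : ℕ) (hq : 2 ≤ q) : ∑ i ∈ range (4 * q), d q i = 8 * q ^ 2 := by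
  have e : 4 * q = (q - 1) + (q + 1) + (q - 1) + 1 + q := by omega
  have h0 : ∑ i ∈ range (q - 1), d q i = ∑ i ∈ range (q - 1), ((1 : ℤ) + 1 * i) := by
    apply sum_congr rfl; intro i hi; rw [mem_range] at hi; unfold d; split_ifs <;> omega
  have h1 : ∑ i ∈ range (q + 1), d q (q - 1 + i) = ∑ i ∈ range (q + 1), ((3 * q : ℤ) + 1 * i) := by
    apply sum_congr rfl; intro i hi; rw [mem_range] at hi; unfold d; split_ifs <;> omega
  have h2 : ∑ i ∈ range (q - 1), d q ((q - 1) + (q + 1) + i)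
      = ∑ i ∈ range (q - 1), ((2 * q - 1 : ℤ) + (-1) * i) := by
    apply sum_congr rfl; intro i hi; rw [mem_range] at hi; unfold d; split_ifs <;> omega
  have h3 : ∑ i ∈ range 1, d q ((q - 1) + (q + 1) + (q - 1) + i)
      = ∑ i ∈ range 1, ((-q : ℤ) + 0 * i) := by
    apply sum_congr rfl; intro i hi; rw [mem_range] at hi; unfold d; split_ifs <;> omega
  have h4 : ∑ i ∈ range q, d q ((q - 1) + (q + 1) + (q - 1) + 1 + i)
      = ∑ i ∈ range q, ((3 * q - 1 : ℤ) + (-1) * i) := by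
    apply sum_congr rfl; intro i hi; rw [mem_range] at hi; unfold d; split_ifs <;> omega
  have key : 2 * ∑ i ∈ range (4 * q), d q i = 16 * q ^ 2 := by
    rw [e, sum_range_add, sum_range_add, sum_range_add, sum_range_add, h0, h1, h2, h3, h4]
    rw [mul_add, mul_add, mul_add, mul_add, two_mul_sum_ap, two_mul_sum_ap, two_mul_sum_ap,
      two_mul_sum_ap, two_mul_sum_ap]
    have hq' : ((q - 1 : ℕ) : ℤ) = q - 1 := by push_cast [Nat.cast_sub (show 1 ≤ q by omega)]; ring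
    rw [hq']
    push_cast
    ring
  linarith

theorem main (q : ℕ) (hq : 2 ≤ q) :
    ∃ op : ZMod (2 * (4 * q) + 1) → ZMod (2 * (4 * q) + 1) → ZMod (2 * (4 * q) + 1),
      IsPQuasigroup op ∧ IsEulerian op := by
  have : NeZero (4 * q) := ⟨by omega⟩
  refine exists_of_nat_seq (4 * q) (d q) (hA q hq) (hB q hq) 8 (8 * q - 1) ?_
  rw [hS q hq]
  push_cast
  ring

end Pool.Agent.TH503.PQ.Fam0
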