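import Pool.Agent.TH503.PQ.Seq

set_option autoImplicit false

/-!
The family `m = 4 q + 1`.
-/

namespace Pool.Agent.TH503.PQ.Fam1

open Finset

/-- the sequence -/
def d (q i : ℕ) : ℤ :=
  if i < q - 1 then (1) + i
  else if i < q then (-1) - i
  else if i < 2 * q + 1 then -4 * (q : ℤ) - 1 + i
  else if i < 3 * q + 1 then 6 * (q : ℤ) + 2 - i
  else 2 * (q : ℤ) - i

theorem hA (q : ℕ) (hq : 2 ≤ q) (x : ℕ) (hx1 : 1 ≤ x) (hx : x ≤ 4 * q + 1) :
    ∃ i, i < 4 * q + 1 ∧ (d q i = x ∨ d q i = -x) := by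
  rcases Nat.lt_or_ge x (q) with h0 | h0
  · exact ⟨x + (0) - (1), by omega, Or.inl (by unfold d; split_ifs <;> omega)⟩
  rcases Nat.lt_or_ge x (q + 1) with h1 | h1
  · exact ⟨x + (0) - (1), by omega, Or.inr (by unfold d; split_ifs <;> omega)⟩
  rcases Nat.lt_or_ge x (2 * q + 1) with h2 | h2
  · exact ⟨x + (2 * q), by omega, Or.inr (by unfold d; split_ifs <;> omega)⟩
  rcases Nat.lt_or_ge x (3 * q + 2) with h3 | h3
  · exact ⟨(4 * q + 1) - x, by omega, Or.inr (by unfold d; split_ifs <;> omega)⟩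
  · exact ⟨(6 * q + 2) - x, by omega, Or.inl (by unfold d; split_ifs <;> omega)⟩

theorem hB (q : ℕ) (hq : 2 ≤ q) (j : ℕ) (hj : j < 4 * q + 1) :
    ∃ i, i < 4 * q + 1 ∧ (esum (4 * q + 1) (d q) i = 2 * j + 1 ∨ esum (4 * q + 1) (d q) i = -(2 * j + 1) ∨
      esum (4 * q + 1) (d q) i = 2 * j - 2 * (4 * q + 1 : ℕ) ∨
      esum (4 * q + 1) (d q) i = 2 * (4 * q + 1 : ℕ) - 2 * j) := by
  unfold esum
  rcases Nat.lt_or_ge j (1) with h0 | h0
  · exact ⟨q - 2, by omega, Or.inr <| Or.inl (by unfold d; split_ifs <;> omega)⟩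
  rcases Nat.lt_or_ge j (q - 1) with h1 | h1
  · exact ⟨j + (0) - (1), by omega, Or.inl (by unfold d; split_ifs <;> omega)⟩
  rcases Nat.lt_or_ge j (q) with h2 | h2
  · exact ⟨4 * q, by omega, Or.inr <| Or.inl (by unfold d; split_ifs <;> omega)⟩
  rcases Nat.lt_or_ge j (q + 1) with h3 | h3
  · exact ⟨3 * q, by omega, Or.inl (by unfold d; split_ifs <;> omega)⟩
  rcases Nat.lt_or_ge j (2 * q) with h4 | h4
  · exact ⟨j + (2 * q), by omega, Or.inr <| Or.inl (by unfold d; split_ifs <;> omega)⟩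
  rcases Nat.lt_or_ge j (2 * q + 1) with h5 | h5
  · exact ⟨q - 1, by omega, Or.inr <| Or.inl (by unfold d; split_ifs <;> omega)⟩
  rcases Nat.lt_or_ge j (3 * q + 1) with h6 | h6
  · exact ⟨(4 * q) - j, by omega, Or.inr <| Or.inl (by unfold d; split_ifs <;> omega)⟩
  rcases Nat.lt_or_ge j (3 * q + 2) with h7 | h7
  · exact ⟨2 * q, by omega, Or.inr <| Or.inr <| Or.inr (by unfold d; split_ifs <;> omega)⟩
  · exact ⟨(6 * q + 1) - j, by omega, Or.inl (by unfold d; split_ifs <;> omega)⟩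

theorem hS (q : ℕ) (hq : 2 ≤ q) :
    2 * ∑ i ∈ range (4 * q + 1), d q i = (0) * (q : ℤ) ^ 2 + (-8) * q + (-2) := by
  have e : 4 * q + 1 = (q - 1) + (1) + (q + 1) + (q) + (q) := by omega
  have h0 : ∑ i ∈ range (q - 1), d q (i)
      = ∑ i ∈ range (q - 1), (((1) : ℤ) + (1) * i) := by
    apply sum_congr rfl; intro i hi; rw [mem_range] at hi; unfold d; split_ifs <;> omega
  have h1 : ∑ i ∈ range (1), d q ((q - 1) + i)
      = ∑ i ∈ range (1), ((-(q : ℤ) : ℤ) + (-1) * i) := by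
    apply sum_congr rfl; intro i hi; rw [mem_range] at hi; unfold d; split_ifs <;> omega
  have h2 : ∑ i ∈ range (q + 1), d q ((q - 1) + (1) + i)
      = ∑ i ∈ range (q + 1), ((-3 * (q : ℤ) - 1 : ℤ) + (1) * i) := by
    apply sum_congr rfl; intro i hi; rw [mem_range] at hi; unfold d; split_ifs <;> omega
  have h3 : ∑ i ∈ range (q), d q ((q - 1) + (1) + (q + 1) + i)
      = ∑ i ∈ range (q), ((4 * (q : ℤ) + 1 : ℤ) + (-1) * i) := by
    apply sum_congr rfl; intro i hi; rw [mem_range] at hi; unfold d; split_ifs <;> omega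
  have h4 : ∑ i ∈ range (q), d q ((q - 1) + (1) + (q + 1) + (q) + i)
      = ∑ i ∈ range (q), ((-(q : ℤ) - 1 : ℤ) + (-1) * i) := by
    apply sum_congr rfl; intro i hi; rw [mem_range] at hi; unfold d; split_ifs <;> omega
  rw [e, sum_range_add, sum_range_add, sum_range_add, sum_range_add, h0, h1, h2, h3, h4]
  rw [mul_add, mul_add, mul_add, mul_add, two_mul_sum_ap, two_mul_sum_ap, two_mul_sum_ap, two_mul_sum_ap, two_mul_sum_ap]
  have c0 : ((q - 1 : ℕ) : ℤ) = (q : ℤ) - 1 := by omega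
  rw [c0]
  push_cast
  ring

theorem main (q : ℕ) (hq : 2 ≤ q) :
    ∃ op : ZMod (2 * (4 * q + 1) + 1) → ZMod (2 * (4 * q + 1) + 1) → ZMod (2 * (4 * q + 1) + 1),
      IsPQuasigroup op ∧ IsEulerian op := by
  have : NeZero (4 * q + 1) := ⟨by omega⟩
  refine exists_of_nat_seq (4 * q + 1) (d q) (hA q hq) (hB q hq) (2) ((0) * q + (-1)) ?_
  have h := hS q hq
  have h2 : 2 * ((∑ i ∈ range (4 * q + 1), d q i) * (2)) = 2 * (1 + ((0) * (q : ℤ) + (-1)) * (2 * ((4 * q + 1 : ℕ) : ℤ) + 1)) := by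
    rw [← mul_assoc, h]
    push_cast
    ring
  exact mul_left_cancel₀ (by norm_num) h2

end Pool.Agent.TH503.PQ.Fam1
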