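import Mathlib

set_option autoImplicit false

/-!
P-groupoids, P-quasigroups and Eulerian P-quasigroups (Kotzig).
-/

namespace Pool.Agent.TH503.PQ

/-- A P-groupoid: (i) `a·a = a`; (ii) if `a ≠ b` then `a·b ≠ a` and `a·b ≠ b`;
(iii) `a·b = c` if and only if `c·b = a`. -/
structure IsPGroupoid {V : Type} (op : V → V → V) : Prop where
  idem : ∀ a, op a a = a
  ne_both : ∀ a b, a ≠ b → op a b ≠ a ∧ op a b ≠ b
  symm_iff : ∀ a b c, op a b = c ↔ op c b = a

/-- A P-quasigroup: a P-groupoid in which `a·x = b` and `y·a = b` have exactly one solution. -/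
structure IsPQuasigroup {V : Type} (op : V → V → V) : Prop extends IsPGroupoid op where
  left_div : ∀ a b, ∃! x, op a x = b
  right_div : ∀ a b, ∃! y, op y a = b

/-- The operation on the `n`-element set `V` is Eulerian: there is a cyclic sequence
`v` of length `n(n-1)/2` with `v i · v (i+1) = v (i+2)` for all `i`, such that every edge of the
complete graph on `V` equals `{v i, v (i+1)}` for exactly one `i`. -/
def IsEulerian {V : Type} [Fintype V] (op : V → V → V) : Prop :=
  ∃ v : ZMod (Fintype.card V * (Fintype.card V - 1) / 2) → V,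
    (∀ i, op (v i) (v (i + 1)) = v (i + 2)) ∧
    ∀ a b : V, a ≠ b → ∃! i, s(v i, v (i + 1)) = s(a, b)

end Pool.Agent.TH503.PQ
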