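import Pool.Agent.TH503.PQ.Defs

set_option autoImplicit false

/-!
Cyclic difference sequences give Eulerian P-quasigroups of order `2m+1`.
-/

namespace Pool.Agent.TH503.PQ

open Finset

section Gen

variable (m : ℕ) [NeZero m] (D : ZMod m → ZMod (2 * m + 1))

/-- signed differences -/
def F : Option (ZMod m × Bool) → ZMod (2 * m + 1)
  | none => 0
  | some (i, true) => D i
  | some (i, false) => - D i

/-- signed sums of consecutive differences -/
def G : Option (ZMod m × Bool) → ZMod (2 * m + 1)
  | none => 0
  | some (i, true) => D i + D (i + 1)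
  | some (i, false) => - D i - D (i - 1)

def nxt : Option (ZMod m × Bool) → Option (ZMod m × Bool)
  | none => none
  | some (i, true) => some (i + 1, true)
  | some (i, false) => some (i - 1, false)

def neg : Option (ZMod m × Bool) → Option (ZMod m × Bool)
  | none => none
  | some (i, b) => some (i, !b)

omit [NeZero m] in
lemma F_neg (z : Option (ZMod m × Bool)) : F m D (neg m z) = - F m D z := by
  rcases z with _ | ⟨i, _ | _⟩ <;> simp [F, neg]

omit [NeZero m] in
lemma nxt_neg_nxt (z : Option (ZMod m × Bool)) : nxt m (neg m (nxt m z)) = neg m z := by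
  rcases z with _ | ⟨i, _ | _⟩ <;> simp [nxt, neg]

omit [NeZero m] in
lemma F_add_nxt (z : Option (ZMod m × Bool)) : F m D z + F m D (nxt m z) = G m D z := by
  rcases z with _ | ⟨i, _ | _⟩ <;> simp [F, G, nxt]
  ring

lemma card_opt : Fintype.card (Option (ZMod m × Bool)) = Fintype.card (ZMod (2 * m + 1)) := by
  rw [Fintype.card_option, Fintype.card_prod, ZMod.card, ZMod.card, Fintype.card_bool]
  ring

variable {m D}

/-- partial sums -/
def V (D : ZMod m → ZMod (2 * m + 1)) (t : ℕ) : ZMod (2 * m + 1) :=
  ∑ j ∈ range t, D (j : ZMod m)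

omit [NeZero m] in
lemma V_succ (t : ℕ) : V D (t + 1) = V D t + D (t : ZMod m) := by
  unfold V
  rw [sum_range_succ]

omit [NeZero m] in
lemma V_add_m (t : ℕ) : V D (m + t) = V D m + V D t := by
  unfold V
  rw [sum_range_add]
  congr 1
  apply sum_congr rfl
  intro j _
  push_cast
  simp

omit [NeZero m] in
lemma V_add_mul (t k : ℕ) : V D (t + m * k) = V D t + k * V D m := by
  induction k with
  | zero => simp
  | succ k ih =>
    have : t + m * (k + 1) = m + (t + m * k) := by ring
    rw [this, V_add_m, ih]
    push_cast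
    ring

omit [NeZero m] in
lemma V_periodic : Function.Periodic (V D) ((2 * m + 1) * m) := by
  intro t
  have : t + (2 * m + 1) * m = t + m * (2 * m + 1) := by ring
  rw [this, V_add_mul]
  have h : ((2 * m + 1 : ℕ) : ZMod (2 * m + 1)) = 0 := ZMod.natCast_self _
  rw [h]; simp

/-- The construction. -/
theorem exists_of_seq
    (hF : Function.Surjective (F m D)) (hG : Function.Surjective (G m D))
    (c : ZMod (2 * m + 1)) (hc : V D m * c = 1) :
    ∃ op : ZMod (2 * m + 1) → ZMod (2 * m + 1) → ZMod (2 * m + 1),
      IsPQuasigroup op ∧ IsEulerian op := by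
  classical
  have hFb : Function.Bijective (F m D) :=
    (Fintype.bijective_iff_surjective_and_card _).2 ⟨hF, card_opt m⟩
  have hGb : Function.Bijective (G m D) :=
    (Fintype.bijective_iff_surjective_and_card _).2 ⟨hG, card_opt m⟩
  let e := Equiv.ofBijective (F m D) hFb
  have he : ∀ z, e z = F m D z := fun z => rfl
  let φ : ZMod (2 * m + 1) → ZMod (2 * m + 1) := fun x => F m D (nxt m (e.symm x))
  have hφF : ∀ z, φ (F m D z) = F m D (nxt m z) := by
    intro z
    change F m D (nxt m (e.symm (F m D z))) = _
    rw [← he z, Equiv.symm_apply_apply]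
  have hφ0 : φ 0 = 0 := by
    have := hφF none
    simpa [F, nxt] using this
  have hφneg : ∀ x, φ (-φ x) = -x := by
    intro x
    obtain ⟨z, rfl⟩ := hF x
    rw [hφF, ← F_neg, hφF, nxt_neg_nxt, F_neg]
  have hsum : ∀ z, F m D z + φ (F m D z) = G m D z := by
    intro z; rw [hφF, F_add_nxt]
  have hF0 : F m D none = 0 := rfl
  have hG0 : G m D none = 0 := rfl
  have hφne : ∀ x, x ≠ 0 → φ x ≠ 0 ∧ x + φ x ≠ 0 := by
    intro x hx
    obtain ⟨z, rfl⟩ := hF x
    have hz : z ≠ none := by rintro rfl; exact hx rfl
    constructor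
    · rw [hφF, ← hF0]
      intro h
      have := hFb.1 h
      rcases z with _ | ⟨i, _ | _⟩ <;> simp [nxt] at this
      exact hz rfl
    · rw [hsum, ← hG0]
      intro h
      exact hz (hGb.1 h)
  let op : ZMod (2 * m + 1) → ZMod (2 * m + 1) → ZMod (2 * m + 1) := fun a b => b + φ (b - a)
  have hsymm : ∀ a b c, op a b = c → op c b = a := by
    intro a b c h
    change b + φ (b - c) = a
    have h' : b + φ (b - a) = c := h
    rw [← h']
    have : b - (b + φ (b - a)) = - φ (b - a) := by ring
    rw [this, hφneg]
    ring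
  refine ⟨op, ⟨⟨?_, ?_, ?_⟩, ?_, ?_⟩, ?_⟩
  · intro a
    change a + φ (a - a) = a
    rw [sub_self, hφ0, add_zero]
  · intro a b hab
    have hne : b - a ≠ 0 := sub_ne_zero.2 (Ne.symm hab)
    obtain ⟨h1, h2⟩ := hφne _ hne
    constructor
    · intro h
      apply h2
      have h' : b + φ (b - a) = a := h
      have : b - a + φ (b - a) = (b + φ (b - a)) - a := by ring
      rw [this, h', sub_self]
    · intro h
      have h' : b + φ (b - a) = b := h
      exact h1 (by simpa using h')
  · exact fun a b c => ⟨hsymm a b c, hsymm c b a⟩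
  · intro a b
    obtain ⟨z, hz⟩ := hG (b - a)
    refine ⟨a + F m D z, ?_, ?_⟩
    · change a + F m D z + φ (a + F m D z - a) = b
      rw [add_sub_cancel_left, add_assoc, hsum, hz]
      ring
    · intro y hy
      change y + φ (y - a) = b at hy
      obtain ⟨w, hw⟩ := hF (y - a)
      have h1 : G m D w = b - a := by
        rw [← hsum, hw, ← hy]
        ring
      have h2 : w = z := hGb.1 (h1.trans hz.symm)
      rw [← h2, hw]
      ring
  · intro a b
    refine ⟨op b a, hsymm b a _ rfl, ?_⟩
    intro y hy
    exact (hsymm y a b hy).symm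
  · -- Eulerian
    have hcard : Fintype.card (ZMod (2 * m + 1)) * (Fintype.card (ZMod (2 * m + 1)) - 1) / 2
        = (2 * m + 1) * m := by
      rw [ZMod.card]
      have : (2 * m + 1) * (2 * m + 1 - 1) = 2 * ((2 * m + 1) * m) := by
        rw [Nat.add_sub_cancel]; ring
      rw [this, Nat.mul_div_cancel_left _ (by norm_num)]
    unfold IsEulerian
    rw [hcard]
    have hM : 0 < (2 * m + 1) * m := Nat.mul_pos (by omega) (Nat.pos_of_ne_zero (NeZero.ne m))
    have : NeZero ((2 * m + 1) * m) := ⟨hM.ne'⟩
    let v : ZMod ((2 * m + 1) * m) → ZMod (2 * m + 1) := fun i => V D i.val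
    have hv : ∀ t : ℕ, v (t : ZMod ((2 * m + 1) * m)) = V D t := by
      intro t
      change V D (ZMod.val (t : ZMod ((2 * m + 1) * m))) = _
      rw [ZMod.val_natCast]
      exact V_periodic.map_mod_nat t
    have hrep : ∀ i : ZMod ((2 * m + 1) * m), ∃ t : ℕ, (t : ZMod ((2 * m + 1) * m)) = i :=
      fun i => ⟨i.val, ZMod.natCast_zmod_val i⟩
    refine ⟨v, ?_, ?_⟩
    · intro i
      obtain ⟨t, rfl⟩ := hrep i
      have h1 : ((t : ZMod ((2 * m + 1) * m)) + 1) = ((t + 1 : ℕ) : ZMod ((2 * m + 1) * m)) := by
        push_cast; ring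
      have h2 : ((t : ZMod ((2 * m + 1) * m)) + 2) = ((t + 2 : ℕ) : ZMod ((2 * m + 1) * m)) := by
        push_cast; ring
      rw [h1, h2, hv, hv, hv]
      change V D (t + 1) + φ (V D (t + 1) - V D t) = V D (t + 2)
      have h3 : V D (t + 1) - V D t = F m D (some ((t : ZMod m), true)) := by
        rw [V_succ]; simp [F]
      rw [h3, hφF, show t + 2 = (t + 1) + 1 by ring, V_succ (t + 1)]
      simp [nxt, F]
    · -- edges
      have hstep : ∀ (j : ZMod m) (a : ZMod (2 * m + 1)), ∃ i, v i = a ∧ v (i + 1) = a + D j := by
        intro j a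
        refine ⟨((j.val + m * ((a - V D j.val) * c).val : ℕ) : ZMod ((2 * m + 1) * m)), ?_, ?_⟩
        · rw [hv, V_add_mul, ZMod.natCast_zmod_val]
          have : V D j.val + (a - V D j.val) * c * V D m
            = V D j.val + (a - V D j.val) * (V D m * c) := by ring
          rw [this, hc]; ring
        · have h1 : (((j.val + m * ((a - V D j.val) * c).val : ℕ) : ZMod ((2 * m + 1) * m)) + 1)
              = ((j.val + m * ((a - V D j.val) * c).val + 1 : ℕ) : ZMod ((2 * m + 1) * m)) := by
            push_cast; ring
          rw [h1, hv, V_succ, V_add_mul, ZMod.natCast_zmod_val]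
          have : V D j.val + (a - V D j.val) * c * V D m
            = V D j.val + (a - V D j.val) * (V D m * c) := by ring
          rw [this, hc]
          have h2 : (((j.val + m * ((a - V D j.val) * c).val : ℕ)) : ZMod m) = j := by
            push_cast
            simp
          rw [h2]; ring
      have hDne : ∀ j : ZMod m, D j ≠ 0 := by
        intro j h
        have h1 : F m D (some (j, true)) = F m D none := by simpa [F] using h
        have := hFb.1 h1
        simp at this
      -- the map to edges
      let E := {e : Sym2 (ZMod (2 * m + 1)) // ¬ e.IsDiag}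
      have hvd : ∀ i, v i ≠ v (i + 1) := by
        intro i
        obtain ⟨t, rfl⟩ := hrep i
        have h1 : ((t : ZMod ((2 * m + 1) * m)) + 1) = ((t + 1 : ℕ) : ZMod ((2 * m + 1) * m)) := by
          push_cast; ring
        rw [h1, hv, hv, V_succ]
        intro h
        exact hDne _ (by simpa using h.symm)
      let g : ZMod ((2 * m + 1) * m) → E := fun i =>
        ⟨s(v i, v (i + 1)), by rw [Sym2.mk_isDiag_iff]; exact hvd i⟩
      have hcardE : Fintype.card (ZMod ((2 * m + 1) * m)) = Fintype.card E := by
        rw [ZMod.card, Sym2.card_subtype_not_diag, ZMod.card, Nat.choose_two_right]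
        have : (2 * m + 1) * (2 * m + 1 - 1) = 2 * ((2 * m + 1) * m) := by
          rw [Nat.add_sub_cancel]; ring
        rw [this, Nat.mul_div_cancel_left _ (by norm_num)]
      have hedge : ∀ a b : ZMod (2 * m + 1), a ≠ b → ∃ i, s(v i, v (i + 1)) = s(a, b) := by
        intro a b hab
        obtain ⟨z, hz⟩ := hF (b - a)
        rcases z with _ | ⟨j, _ | _⟩
        · exfalso
          exact hab (sub_eq_zero.1 hz.symm).symm
        · obtain ⟨i, h1, h2⟩ := hstep j b
          refine ⟨i, ?_⟩
          have h3 : b + D j = a := by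
            have : - D j = b - a := hz
            have h4 : D j = a - b := by rw [← neg_neg (D j), this]; ring
            rw [h4]; ring
          rw [h1, h2, h3, Sym2.eq_swap]
        · obtain ⟨i, h1, h2⟩ := hstep j a
          refine ⟨i, ?_⟩
          have h3 : a + D j = b := by
            have : D j = b - a := hz
            rw [this]; ring
          rw [h1, h2, h3]
      have hgs : Function.Surjective g := by
        rintro ⟨e, he⟩
        induction e using Sym2.ind with
        | _ a b =>
          have hab : a ≠ b := by rwa [Sym2.mk_isDiag_iff] at he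
          obtain ⟨i, hi⟩ := hedge a b hab
          exact ⟨i, Subtype.ext hi⟩
      have hgb : Function.Bijective g :=
        (Fintype.bijective_iff_surjective_and_card _).2 ⟨hgs, hcardE⟩
      intro a b hab
      obtain ⟨i, hi⟩ := hedge a b hab
      refine ⟨i, hi, ?_⟩
      intro i' hi'
      apply hgb.1
      apply Subtype.ext
      exact hi'.trans hi.symm

end Gen

end Pool.Agent.TH503.PQ
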