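import Pool.Agent.TH503.PQ.Gen

set_option autoImplicit false

/-!
The criterion for sequences of integers.
-/

namespace Pool.Agent.TH503.PQ

open Finset

/-- sum of consecutive terms of the cyclic sequence `d 0, …, d (m-1)` -/
def esum (m : ℕ) (d : ℕ → ℤ) (i : ℕ) : ℤ := d i + d (if i + 1 = m then 0 else i + 1)

theorem exists_of_nat_seq (m : ℕ) [NeZero m] (d : ℕ → ℤ)
    (hA : ∀ x : ℕ, 1 ≤ x → x ≤ m → ∃ i, i < m ∧ (d i = x ∨ d i = -x))
    (hB : ∀ j : ℕ, j < m → ∃ i, i < m ∧ (esum m d i = 2 * j + 1 ∨ esum m d i = -(2 * j + 1) ∨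
      esum m d i = 2 * j - 2 * m ∨ esum m d i = 2 * m - 2 * j))
    (c k : ℤ) (hc : (∑ i ∈ range m, d i) * c = 1 + k * (2 * m + 1)) :
    ∃ op : ZMod (2 * m + 1) → ZMod (2 * m + 1) → ZMod (2 * m + 1),
      IsPQuasigroup op ∧ IsEulerian op := by
  have hm : 0 < m := Nat.pos_of_ne_zero (NeZero.ne m)
  let D : ZMod m → ZMod (2 * m + 1) := fun i => ((d i.val : ℤ) : ZMod (2 * m + 1))
  have hD : ∀ i : ℕ, i < m → D (i : ZMod m) = (d i : ZMod (2 * m + 1)) := by
    intro i hi
    change ((d (ZMod.val (i : ZMod m)) : ℤ) : ZMod (2 * m + 1)) = _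
    rw [ZMod.val_natCast, Nat.mod_eq_of_lt hi]
  have hDE : ∀ i : ℕ, i < m →
      D (i : ZMod m) + D ((i : ZMod m) + 1) = (esum m d i : ZMod (2 * m + 1)) := by
    intro i hi
    have h1 : ((i : ZMod m) + 1) = (((if i + 1 = m then 0 else i + 1 : ℕ)) : ZMod m) := by
      split_ifs with h
      · have h2 : ((i + 1 : ℕ) : ZMod m) = 0 := by rw [h]; exact ZMod.natCast_self m
        push_cast at h2 ⊢
        exact h2
      · push_cast; rfl
    rw [h1, hD i hi, hD _ (by split_ifs <;> omega)]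
    unfold esum
    push_cast
    rfl
  have hn0 : ((2 * m + 1 : ℤ) : ZMod (2 * m + 1)) = 0 := by
    have := ZMod.natCast_self (2 * m + 1)
    exact_mod_cast this
  have hn0' : (2 * (m : ZMod (2 * m + 1)) + 1) = 0 := by
    have h := hn0
    push_cast at h
    exact h
  -- every nonzero element is ± x, 1 ≤ x ≤ m
  have hrepA : ∀ y : ZMod (2 * m + 1), y ≠ 0 → ∃ x : ℕ, 1 ≤ x ∧ x ≤ m ∧
      (y = (x : ZMod (2 * m + 1)) ∨ y = -(x : ZMod (2 * m + 1))) := by
    intro y hy
    have hlt : y.val < 2 * m + 1 := ZMod.val_lt y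
    have hpos : 0 < y.val := by
      rcases Nat.eq_zero_or_pos y.val with h | h
      · exact absurd ((ZMod.val_eq_zero y).1 h) hy
      · exact h
    have hyv : ((y.val : ℕ) : ZMod (2 * m + 1)) = y := ZMod.natCast_zmod_val y
    by_cases h : y.val ≤ m
    · exact ⟨y.val, hpos, h, Or.inl hyv.symm⟩
    · refine ⟨2 * m + 1 - y.val, by omega, by omega, Or.inr ?_⟩
      rw [Nat.cast_sub (by omega), hyv]
      push_cast
      rw [hn0']; ring
  have hrepB : ∀ y : ZMod (2 * m + 1), y ≠ 0 → ∃ j : ℕ, j < m ∧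
      (y = (2 * j + 1 : ZMod (2 * m + 1)) ∨ y = -(2 * j + 1 : ZMod (2 * m + 1))) := by
    intro y hy
    have hlt : y.val < 2 * m + 1 := ZMod.val_lt y
    have hpos : 0 < y.val := by
      rcases Nat.eq_zero_or_pos y.val with h | h
      · exact absurd ((ZMod.val_eq_zero y).1 h) hy
      · exact h
    have hyv : ((y.val : ℕ) : ZMod (2 * m + 1)) = y := ZMod.natCast_zmod_val y
    rcases Nat.even_or_odd' y.val with ⟨j, hj | hj⟩
    · refine ⟨m - j, by omega, Or.inr ?_⟩
      have h1 : y = 2 * (j : ZMod (2 * m + 1)) := by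
        rw [← hyv, hj]; push_cast; rfl
      rw [Nat.cast_sub (by omega), h1]
      have : -(2 * ((m : ZMod (2 * m + 1)) - j) + 1) = 2 * j - (2 * (m : ZMod (2 * m + 1)) + 1) := by
        ring
      rw [this, hn0']; ring
    · refine ⟨j, by omega, Or.inl ?_⟩
      rw [← hyv, hj]; push_cast; rfl
  refine exists_of_seq (m := m) (D := D) ?_ ?_ (c : ZMod (2 * m + 1)) ?_
  · intro y
    by_cases hy : y = 0
    · exact ⟨none, hy.symm⟩
    obtain ⟨x, hx1, hxm, hx⟩ := hrepA y hy
    obtain ⟨i, hi, hi'⟩ := hA x hx1 hxm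
    have h1 : D (i : ZMod m) = x ∨ D (i : ZMod m) = -x := by
      rw [hD i hi]
      rcases hi' with h | h <;> rw [h]
      · left; push_cast; rfl
      · right; push_cast; rfl
    rcases hx with hx | hx <;> rcases h1 with h1 | h1
    · exact ⟨some (i, true), by rw [hx, ← h1]; rfl⟩
    · exact ⟨some (i, false), by rw [hx]; change - D _ = _; rw [h1, neg_neg]⟩
    · exact ⟨some (i, false), by rw [hx]; change - D _ = _; rw [h1]⟩
    · exact ⟨some (i, true), by rw [hx, ← h1]; rfl⟩
  · intro y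
    by_cases hy : y = 0
    · exact ⟨none, hy.symm⟩
    obtain ⟨j, hjm, hj⟩ := hrepB y hy
    obtain ⟨i, hi, hi'⟩ := hB j hjm
    have h1 : D (i : ZMod m) + D ((i : ZMod m) + 1) = 2 * j + 1 ∨
        D (i : ZMod m) + D ((i : ZMod m) + 1) = -(2 * j + 1) := by
      rw [hDE i hi]
      rcases hi' with h | h | h | h <;> rw [h]
      · left; push_cast; rfl
      · right; push_cast; rfl
      · left
        push_cast
        have : (2 : ZMod (2 * m + 1)) * j - 2 * m = 2 * j + 1 - (2 * (m : ZMod (2 * m + 1)) + 1) := by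
          ring
        rw [this, hn0']; ring
      · right
        push_cast
        have : (2 : ZMod (2 * m + 1)) * m - 2 * j
          = -(2 * j + 1) + (2 * (m : ZMod (2 * m + 1)) + 1) := by
          ring
        rw [this, hn0']; ring
    rcases hj with hj | hj <;> rcases h1 with h1 | h1
    · exact ⟨some (i, true), by rw [hj, ← h1]; rfl⟩
    · refine ⟨some ((i : ZMod m) + 1, false), ?_⟩
      rw [hj]
      change - D ((i : ZMod m) + 1) - D ((i : ZMod m) + 1 - 1) = _
      rw [add_sub_cancel_right, show - D ((i : ZMod m) + 1) - D (i : ZMod m) =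
        -(D (i : ZMod m) + D ((i : ZMod m) + 1)) by ring, h1, neg_neg]
    · refine ⟨some ((i : ZMod m) + 1, false), ?_⟩
      rw [hj]
      change - D ((i : ZMod m) + 1) - D ((i : ZMod m) + 1 - 1) = _
      rw [add_sub_cancel_right, show - D ((i : ZMod m) + 1) - D (i : ZMod m) =
        -(D (i : ZMod m) + D ((i : ZMod m) + 1)) by ring, h1]
    · exact ⟨some (i, true), by rw [hj, ← h1]; rfl⟩
  · have h1 : V D m = ((∑ i ∈ range m, d i : ℤ) : ZMod (2 * m + 1)) := by
      unfold V
      push_cast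
      apply sum_congr rfl
      intro i hi
      rw [hD i (mem_range.1 hi)]
    rw [h1]
    have h2 : (((∑ i ∈ range m, d i) * c : ℤ) : ZMod (2 * m + 1))
        = ((1 + k * (2 * m + 1) : ℤ) : ZMod (2 * m + 1)) := by rw [hc]
    push_cast at h2
    rw [hn0', mul_zero, add_zero] at h2
    push_cast
    exact h2

/-- sum of an arithmetic progression -/
lemma two_mul_sum_ap (L : ℕ) (c δ : ℤ) :
    2 * ∑ i ∈ range L, (c + δ * i) = 2 * L * c + δ * (L * (L - 1)) := by
  induction L with
  | zero => simp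
  | succ L ih =>
    rw [sum_range_succ, mul_add, ih]
    push_cast
    ring

end Pool.Agent.TH503.PQ
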