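import Pool.Agent.TH503.PQ.Seq

set_option autoImplicit false

/-!
Small orders: existence for 3, 7, 9, 11, 13 and nonexistence for 5 and all even orders.
-/

namespace Pool.Agent.TH503.PQ.Small

open Finset

theorem order3 : ∃ op : ZMod (2 * 1 + 1) → ZMod (2 * 1 + 1) → ZMod (2 * 1 + 1),
    IsPQuasigroup op ∧ IsEulerian op := by
  refine exists_of_nat_seq 1 (fun _ => 1) ?_ ?_ 1 0 ?_
  · intro x h1 h2
    exact ⟨0, by omega, Or.inl (by omega)⟩
  · intro j hj
    refine ⟨0, by omega, Or.inr <| Or.inr <| Or.inr ?_⟩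
    simp only [esum]
    push_cast
    omega
  · simp

/-- the sequence `1..k, -(k+1)..-m` -/
def ds (k i : ℕ) : ℤ := if i < k then (i : ℤ) + 1 else -((i : ℤ) + 1)

theorem order9 : ∃ op : ZMod (2 * 4 + 1) → ZMod (2 * 4 + 1) → ZMod (2 * 4 + 1),
    IsPQuasigroup op ∧ IsEulerian op := by
  refine exists_of_nat_seq 4 (ds 1) ?_ ?_ 1 (-1) ?_
  · intro x h1 h2
    interval_cases x <;> decide
  · intro j hj
    interval_cases j <;> decide
  · decide

theorem order11 : ∃ op : ZMod (2 * 5 + 1) → ZMod (2 * 5 + 1) → ZMod (2 * 5 + 1),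
    IsPQuasigroup op ∧ IsEulerian op := by
  refine exists_of_nat_seq 5 (ds 3) ?_ ?_ (-4) 1 ?_
  · intro x h1 h2
    interval_cases x <;> decide
  · intro j hj
    interval_cases j <;> decide
  · decide

theorem order13 : ∃ op : ZMod (2 * 6 + 1) → ZMod (2 * 6 + 1) → ZMod (2 * 6 + 1),
    IsPQuasigroup op ∧ IsEulerian op := by
  refine exists_of_nat_seq 6 (ds 2) ?_ ?_ 6 (-7) ?_
  · intro x h1 h2
    interval_cases x <;> decide
  · intro j hj
    interval_cases j <;> decide
  · decide

/-! ### Order 7 -/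

def t7 : Fin 7 → Fin 7 → Fin 7 :=
  ![![0, 2, 3, 5, 6, 1, 4], ![2, 1, 6, 4, 5, 0, 3], ![1, 0, 2, 6, 3, 4, 5], ![4, 5, 0, 3, 2, 6, 1],
    ![3, 6, 5, 1, 4, 2, 0], ![6, 3, 4, 0, 1, 5, 2], ![5, 4, 1, 2, 0, 3, 6]]

def s7 : Fin 21 → Fin 7 :=
  ![0, 1, 2, 6, 5, 3, 0, 4, 6, 0, 5, 1, 3, 4, 2, 5, 4, 1, 6, 3, 2]

theorem order7 : IsPQuasigroup t7 ∧ IsEulerian t7 := by
  refine ⟨⟨⟨by decide, by decide, by decide⟩, ?_, ?_⟩, ?_⟩
  · have h : ∀ a b : Fin 7, ∃ x, t7 a x = b ∧ ∀ y, t7 a y = b → y = x := by decide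
    exact h
  · have h : ∀ a b : Fin 7, ∃ x, t7 x a = b ∧ ∀ y, t7 y a = b → y = x := by decide
    exact h
  · unfold IsEulerian
    have hc : Fintype.card (Fin 7) * (Fintype.card (Fin 7) - 1) / 2 = 21 := by
      rw [Fintype.card_fin]
    rw [hc]
    refine ⟨fun i : Fin 21 => s7 i, ?_, ?_⟩
    · change ∀ i : Fin 21, t7 (s7 i) (s7 (i + 1)) = s7 (i + 2)
      decide
    · have h : ∀ a b : Fin 7, a ≠ b → ∃ i : Fin 21,
          ((s7 i = a ∧ s7 (i + 1) = b) ∨ (s7 i = b ∧ s7 (i + 1) = a)) ∧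
          ∀ j : Fin 21, ((s7 j = a ∧ s7 (j + 1) = b) ∨ (s7 j = b ∧ s7 (j + 1) = a)) → j = i := by
        decide
      intro a b hab
      obtain ⟨i, hi, hu⟩ := h a b hab
      refine ⟨i, Sym2.eq_iff.2 hi, ?_⟩
      intro j hj
      exact hu j (Sym2.eq_iff.1 hj)

/-! ### Even orders -/

theorem odd_card {V : Type} [Fintype V] [Nonempty V] (op : V → V → V) (h : IsPGroupoid op) :
    Odd (Fintype.card V) := by
  classical
  obtain ⟨b⟩ := (inferInstance : Nonempty V)
  let f : Function.End V := fun a => op a b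
  have hinv : ∀ a, f (f a) = a := by
    intro a
    exact (h.symm_iff a b _).1 rfl
  have hf : f ^ 2 ^ 1 = 1 := by
    rw [pow_one, pow_two]
    funext a
    exact hinv a
  have h1 := Equiv.Perm.card_fixedPoints_modEq (p := 2) (n := 1) hf
  have h2 : Fintype.card (Function.fixedPoints f) = 1 := by
    rw [Fintype.card_eq_one_iff]
    refine ⟨⟨b, h.idem b⟩, ?_⟩
    rintro ⟨a, ha⟩
    apply Subtype.ext
    by_contra hab
    exact (h.ne_both a b hab).1 ha
  rw [h2] at h1
  rw [Nat.odd_iff]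
  exact h1

/-! ### Order 5 -/

/-- the three perfect matchings of `{1,2,3,4}` -/
def mt : Fin 3 → Fin 5 → Fin 5 :=
  ![![0, 2, 1, 4, 3], ![0, 3, 4, 1, 2], ![0, 4, 3, 2, 1]]

def T (c0 c1 c2 c3 c4 : Fin 3) (a b : Fin 5) : Fin 5 := b + mt (![c0, c1, c2, c3, c4] b) (a - b)

theorem mt_of_inv : ∀ r1 r2 r3 r4 : Fin 5,
    (∀ x : Fin 5, ![0, r1, r2, r3, r4] (![0, r1, r2, r3, r4] x) = x) →
    (∀ x : Fin 5, x ≠ 0 → ![0, r1, r2, r3, r4] x ≠ x) →
    ∃ k : Fin 3, mt k = ![0, r1, r2, r3, r4] := by decide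

theorem T_five : ∀ c0 c1 c2 c3 c4 : Fin 3,
    (∀ a x y : Fin 5, T c0 c1 c2 c3 c4 a x = T c0 c1 c2 c3 c4 a y → x = y) →
    ∀ a b : Fin 5,
      T c0 c1 c2 c3 c4
        (T c0 c1 c2 c3 c4 b (T c0 c1 c2 c3 c4 a b))
        (T c0 c1 c2 c3 c4 (T c0 c1 c2 c3 c4 a b) (T c0 c1 c2 c3 c4 b (T c0 c1 c2 c3 c4 a b)))
        = a := by
  decide

theorem exists_T (op : Fin 5 → Fin 5 → Fin 5) (h : IsPGroupoid op) :
    ∃ c0 c1 c2 c3 c4 : Fin 3, op = T c0 c1 c2 c3 c4 := by
  have key : ∀ b : Fin 5, ∃ k : Fin 3, ∀ a : Fin 5, op a b = b + mt k (a - b) := by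
    intro b
    let ρ : Fin 5 → Fin 5 := fun r => op (b + r) b - b
    have hρ0 : ρ 0 = 0 := by simp [ρ, h.idem]
    have hρ : ρ = ![0, ρ 1, ρ 2, ρ 3, ρ 4] := by
      funext r
      fin_cases r
      · exact hρ0
      · rfl
      · rfl
      · rfl
      · rfl
    obtain ⟨k, hk⟩ := mt_of_inv (ρ 1) (ρ 2) (ρ 3) (ρ 4) (by
      rw [← hρ]
      intro x
      change op (b + (op (b + x) b - b)) b - b = x
      rw [add_sub_cancel, (h.symm_iff (b + x) b _).1 rfl]
      simp) (by
      rw [← hρ]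
      intro x hx
      change op (b + x) b - b ≠ x
      intro hc
      refine (h.ne_both (b + x) b ?_).1 ?_
      · intro h'
        exact hx (by simpa using h')
      · rw [sub_eq_iff_eq_add.1 hc, add_comm])
    refine ⟨k, ?_⟩
    intro a
    rw [hk, ← hρ]
    change op a b = b + (op (b + (a - b)) b - b)
    rw [add_sub_cancel, add_sub_cancel]
  choose k hk using key
  refine ⟨k 0, k 1, k 2, k 3, k 4, ?_⟩
  funext a b
  rw [hk b a]
  unfold T
  congr 2
  fin_cases b <;> rfl

theorem five_step' (op : Fin 5 → Fin 5 → Fin 5) (h : IsPQuasigroup op) (a b : Fin 5) :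
    op (op b (op a b)) (op (op a b) (op b (op a b))) = a := by
  obtain ⟨c0, c1, c2, c3, c4, hT⟩ := exists_T op h.toIsPGroupoid
  have hq : ∀ a x y : Fin 5, op a x = op a y → x = y := by
    intro a x y hxy
    exact (h.left_div a (op a y)).unique hxy rfl
  subst hT
  exact T_five c0 c1 c2 c3 c4 hq a b

/-- in a P-quasigroup of order 5 every walk closes after 5 steps -/
theorem five_step {V : Type} [Fintype V] (hV : Fintype.card V = 5) (op : V → V → V)
    (h : IsPQuasigroup op) (a b : V) :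
    op (op b (op a b)) (op (op a b) (op b (op a b))) = a := by
  classical
  let e : V ≃ Fin 5 := Fintype.equivFinOfCardEq hV
  let op' : Fin 5 → Fin 5 → Fin 5 := fun x y => e (op (e.symm x) (e.symm y))
  have hop : ∀ x y, op' (e x) (e y) = e (op x y) := by
    intro x y
    simp [op']
  have h' : IsPQuasigroup op' := by
    refine ⟨⟨?_, ?_, ?_⟩, ?_, ?_⟩
    · intro x
      change e (op _ _) = x
      rw [h.idem]; simp
    · intro x y hxy
      have hne : e.symm x ≠ e.symm y := fun hc => hxy (e.symm.injective hc)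
      obtain ⟨h1, h2⟩ := h.ne_both _ _ hne
      constructor
      · intro hc
        exact h1 (by
          have := congrArg e.symm hc
          simpa [op'] using this)
      · intro hc
        exact h2 (by
          have := congrArg e.symm hc
          simpa [op'] using this)
    · intro x y z
      constructor
      · intro hc
        have h1 : op (e.symm x) (e.symm y) = e.symm z := by
          rw [← hc]; simp [op']
        change e (op (e.symm z) (e.symm y)) = x
        rw [(h.symm_iff _ _ _).1 h1]; simp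
      · intro hc
        have h1 : op (e.symm z) (e.symm y) = e.symm x := by
          rw [← hc]; simp [op']
        change e (op (e.symm x) (e.symm y)) = z
        rw [(h.symm_iff _ _ _).1 h1]; simp
    · intro x y
      obtain ⟨z, hz, hu⟩ := h.left_div (e.symm x) (e.symm y)
      refine ⟨e z, ?_, ?_⟩
      · change e (op (e.symm x) (e.symm (e z))) = y
        rw [Equiv.symm_apply_apply, hz, Equiv.apply_symm_apply]
      · intro w hw
        have h1 : op (e.symm x) (e.symm w) = e.symm y := by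
          rw [← hw]; simp [op']
        rw [← hu _ h1]; simp
    · intro x y
      obtain ⟨z, hz, hu⟩ := h.right_div (e.symm x) (e.symm y)
      refine ⟨e z, ?_, ?_⟩
      · change e (op (e.symm (e z)) (e.symm x)) = y
        rw [Equiv.symm_apply_apply, hz, Equiv.apply_symm_apply]
      · intro w hw
        have h1 : op (e.symm w) (e.symm x) = e.symm y := by
          rw [← hw]; simp [op']
        rw [← hu _ h1]; simp
  have h5 := five_step' op' h' (e a) (e b)
  have r2 := hop a b
  have r3 := hop b (op a b)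
  have r4 := hop (op a b) (op b (op a b))
  have r5 := hop (op b (op a b)) (op (op a b) (op b (op a b)))
  rw [r2, r3, r4, r5] at h5
  exact e.injective h5

theorem not_order5 {V : Type} [Fintype V] (hV : Fintype.card V = 5) (op : V → V → V)
    (h : IsPQuasigroup op) : ¬ IsEulerian op := by
  intro hE
  unfold IsEulerian at hE
  have hc : Fintype.card V * (Fintype.card V - 1) / 2 = 10 := by
    rw [hV]
  rw [hc] at hE
  obtain ⟨v, hv, he⟩ := hE
  have : Nontrivial V := Fintype.one_lt_card_iff_nontrivial.1 (by omega)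
  obtain ⟨a, b, hab⟩ := exists_pair_ne V
  obtain ⟨i, hi, hu⟩ := he a b hab
  have e2 : op (v i) (v (i + 1)) = v (i + 2) := hv i
  have e3 : op (v (i + 1)) (v (i + 2)) = v (i + 3) := by
    have := hv (i + 1)
    rwa [show i + 1 + 1 = i + 2 by ring, show i + 1 + 2 = i + 3 by ring] at this
  have e4 : op (v (i + 2)) (v (i + 3)) = v (i + 4) := by
    have := hv (i + 2)
    rwa [show i + 2 + 1 = i + 3 by ring, show i + 2 + 2 = i + 4 by ring] at this
  have e5 : op (v (i + 3)) (v (i + 4)) = v (i + 5) := by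
    have := hv (i + 3)
    rwa [show i + 3 + 1 = i + 4 by ring, show i + 3 + 2 = i + 5 by ring] at this
  have e6 : op (v (i + 4)) (v (i + 5)) = v (i + 6) := by
    have := hv (i + 4)
    rwa [show i + 4 + 1 = i + 5 by ring, show i + 4 + 2 = i + 6 by ring] at this
  have h5 : v (i + 5) = v i := by
    have := five_step hV op h (v i) (v (i + 1))
    rwa [e2, e3, e4, e5] at this
  have h6 : v (i + 6) = v (i + 1) := by
    have := five_step hV op h (v (i + 1)) (v (i + 2))
    rwa [e3, e4, e5, e6] at this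
  have h7 := hu (i + 5) (by
    change s(v (i + 5), v (i + 5 + 1)) = s(a, b)
    rw [show i + 5 + 1 = i + 6 by ring, h5, h6]
    exact hi)
  have h8 : (5 : ZMod 10) = 0 := by simpa using h7
  exact absurd h8 (by decide)

end Pool.Agent.TH503.PQ.Small
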